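import Mathlib
import Pool.Agent.Helper18.EW.Goals

/-!
# Project EW, packet E13: the special points satisfy `Ext`
-/

set_option autoImplicit false

namespace Pool.Agent.Helper81.EW

open Finset Pool.Agent.Helper18.EW
open Pool.Agent.Helper43.Hw (T na va lz Play aa ac sc oo sk U Dd Sd Pn nx bb np)

theorem gN_mono (μ R K τ s : ℕ) (e P : ℕ → ℕ) {X Y : ℕ} (h : X ≤ Y) :
    gN μ R K τ s e P X ≤ gN μ R K τ s e P Y := by
  unfold gN
  apply card_le_card
  intro i hi
  rw [mem_filter] at hi ⊢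
  exact ⟨hi.1, by omega⟩

theorem two_T (n : ℕ) : 2 * T n = n * (n + 1) := by
  unfold T
  exact Nat.mul_div_cancel' (Nat.even_mul_succ_self n).two_dvd

theorem T_succ (n : ℕ) : T (n + 1) = T n + (n + 1) := by
  have h1 := two_T n
  have h2 := two_T (n + 1)
  nlinarith

/-- the arithmetic progression -/
theorem sum_len {R β : ℕ} {ℓ : ℕ → ℕ} (hL : Len R β ℓ) :
    ∀ d y : ℕ, 1 ≤ y → y + d + 1 = R →
      ∑ z ∈ range y, ℓ z + (d + 1) * ℓ y + β * T d = ∑ z ∈ range R, ℓ z := by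
  intro d
  induction d with
  | zero =>
    intro y hy hR
    have h0 : T 0 = 0 := by
      have := two_T 0
      omega
    rw [← hR, h0, mul_zero, add_zero, add_zero, sum_range_succ]
    ring
  | succ d ih =>
    intro y hy hR
    have h1 := ih (y + 1) (by omega) (by omega)
    rw [sum_range_succ, hL.st y hy (by omega)] at h1
    rw [← h1, T_succ]
    ring

theorem goalE13 (h2 : GoalG2) (h5 : GoalG5) (h7 : GoalG7) : GoalE13 := by
  intro μ R N K b l Lg q β τ s E ℓ e P W hμ hP hL hG hW hV hgr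
  obtain ⟨⟨g1, g2, g3, g4⟩, g5, g6⟩ := h2 μ R K τ s E e P hμ hG
  obtain ⟨f1, f2, f3, f4, f5⟩ := h5 μ R K τ s E e P hμ hG
  have hts := hG.ts
  have ht1 := hG.t1
  have hmul : 128 * l * K ≤ μ := by
    refine le_trans ?_ hP.b2
    rw [hP.hK]
    have h0 : b * (q + 1) ≤ b * (q + 1) ^ 2 :=
      Nat.mul_le_mul_left _ (Nat.le_self_pow (by norm_num) _)
    calc 128 * l * (b * (q + 1)) ≤ 128 * l * (b * (q + 1) ^ 2) := Nat.mul_le_mul_left _ h0
      _ = 128 * (b * (q + 1) ^ 2 * l) := by ring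
      _ ≤ 2 ^ 31 * (b * (q + 1) ^ 2 * l) := Nat.mul_le_mul_right _ (by norm_num)
      _ = 2 ^ 31 * b * (q + 1) ^ 2 * l := by ring
  -- the bound for the number of skips
  have hQ : ∀ w, 2 ^ 24 * gQ μ R K τ s e P w ≤ 2 ^ 24 * K + (w + 1) * b := by
    intro w
    have h := h7 μ R K τ s E l w e P hμ hP.l1 hG hmul hgr
    have hb2 := hP.b2
    have h3 : 2 ^ 24 * (128 * l * K ^ 2 * (w + 1)) ≤ μ * ((w + 1) * b) := by
      have : 2 ^ 24 * (128 * l * K ^ 2 * (w + 1)) =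
          (2 ^ 31 * b * (q + 1) ^ 2 * l) * ((w + 1) * b) := by
        rw [hP.hK]
        ring
      rw [this]
      exact Nat.mul_le_mul_right _ hb2
    have h4 : μ * (2 ^ 24 * gQ μ R K τ s e P w) ≤ μ * (2 ^ 24 * K + (w + 1) * b) := by
      calc μ * (2 ^ 24 * gQ μ R K τ s e P w) = 2 ^ 24 * (μ * gQ μ R K τ s e P w) := by ring
        _ ≤ 2 ^ 24 * (μ * K + 128 * l * K ^ 2 * (w + 1)) := Nat.mul_le_mul_left _ h
        _ = μ * (2 ^ 24 * K) + 2 ^ 24 * (128 * l * K ^ 2 * (w + 1)) := by ring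
        _ ≤ μ * (2 ^ 24 * K) + μ * ((w + 1) * b) := Nat.add_le_add_left h3 _
        _ = μ * (2 ^ 24 * K + (w + 1) * b) := by ring
    exact Nat.le_of_mul_le_mul_left h4 hμ
  refine ⟨hG.Js, ?_, ?_, ?_, ?_, f2, f3, ?_, ?_⟩
  · intro y hy hyR
    have h1 := hL.st y (by omega) hyR
    have h3 := g5 y hy hyR
    have h4 := hV y (by omega)
    have h5' := hV (y + 1) hyR
    show ℓ (y + 1) - gV μ R K τ s e P (y + 1) = ℓ y - gV μ R K τ s e P y + β +
      gO μ R K τ s e P y + gK μ K τ s e P y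
    omega
  · intro y hy hyR
    have hA := sum_len hL (R - 1 - y) y (by omega) (by omega)
    have hRy : R - 1 - y + 1 = R - y := by omega
    rw [hRy] at hA
    have hB := g6 y hy hyR
    have hC : ∑ z ∈ range y, gV μ R K τ s e P z + ∑ z ∈ Ico y R, gV μ R K τ s e P z = K * T μ := by
      rw [← g4]
      exact sum_range_add_sum_Ico _ hyR.le
    have hD : ∑ z ∈ range y, (((ℓ z - gV μ R K τ s e P z : ℕ)) : ℤ) =
        ∑ z ∈ range y, (ℓ z : ℤ) - ∑ z ∈ range y, (gV μ R K τ s e P z : ℤ) := by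
      rw [← sum_sub_distrib]
      apply sum_congr rfl
      intro z hz
      rw [mem_range] at hz
      exact Nat.cast_sub (hV z (by omega))
    have hE : (((ℓ y - gV μ R K τ s e P y : ℕ)) : ℤ) = ℓ y - gV μ R K τ s e P y :=
      Nat.cast_sub (hV y hyR)
    have hA' : ∑ z ∈ range y, (ℓ z : ℤ) + ((R - y : ℕ) : ℤ) * ℓ y + β * T (R - 1 - y) =
        ∑ z ∈ range R, (ℓ z : ℤ) := by exact_mod_cast hA
    have hB' : ∑ z ∈ Ico y R, (gV μ R K τ s e P z : ℤ) + gO μ R K τ s e P y * T (R - 1 - y) +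
        gS μ R K τ s e P y =
        ((R - y : ℕ) : ℤ) * gV μ R K τ s e P y + gD μ R K τ s e P y := by exact_mod_cast hB
    have hC' : ∑ z ∈ range y, (gV μ R K τ s e P z : ℤ) +
        ∑ z ∈ Ico y R, (gV μ R K τ s e P z : ℤ) = K * T μ := by exact_mod_cast hC
    show ∑ z ∈ range y, (((ℓ z - gV μ R K τ s e P z : ℕ)) : ℤ) +
      ((R - y : ℕ) : ℤ) * (((ℓ y - gV μ R K τ s e P y : ℕ)) : ℤ) +
      (β + gO μ R K τ s e P y) * T (R - 1 - y) + gS μ R K τ s e P y =
      N * T μ + W + gD μ R K τ s e P y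
    rw [hD, hE]
    linear_combination hA' + hW + hB' - hC'
  · intro y hy hyR
    show gO μ R K τ s e P (y + 1) ≤ gO μ R K τ s e P y
    rw [f1 y hy (by omega), f1 (y + 1) (by omega) hyR]
    exact gN_mono μ R K τ s e P (by omega)
  · intro z y hz hzy hyR
    show gO μ R K τ s e P z + gN μ R K τ s e P (R - 1 - y) ≤
      gO μ R K τ s e P y + gN μ R K τ s e P (R - 1 - z)
    rw [f1 y (by omega) hyR, f1 z hz (by omega)]
    omega
  · intro y hy hyR
    have hRy : R - 1 - y + 1 = R - y := by omega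
    have h := hQ (R - 1 - y)
    rw [hRy] at h
    calc 2 ^ 24 * gS μ R K τ s e P y ≤ 2 ^ 24 * ((R - 1 - y) * gQ μ R K τ s e P (R - 1 - y)) :=
          Nat.mul_le_mul_left _ (f4 y hy hyR)
      _ = (R - 1 - y) * (2 ^ 24 * gQ μ R K τ s e P (R - 1 - y)) := by ring
      _ ≤ (R - 1 - y) * (2 ^ 24 * K + (R - y) * b) := Nat.mul_le_mul_left _ h
  · intro y hy hyR
    have hRy : R - 1 - y + 1 = R - y := by omega
    have h := hQ (R - 1 - y)
    rw [hRy] at h
    exact (Nat.mul_le_mul_left _ (f5 y hy hyR)).trans h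

end Pool.Agent.Helper81.EW
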